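import Pool.Agent.K3h1.SM.Core

set_option autoImplicit false

/-!
# Simultaneous bounded high-rank minors for several tensors (MP_9444d7_co, Q1)

For every `d ≥ 2`, every non-empty family `R` of partitions of `[d]` and every `l` there are `F` and
`G`, depending only on `d, R, l`, such that over every field, for every `s` and all order-`d`
tensors `T_1, …, T_s` on a common finite domain all of whose non-zero combinations `a.T` have
`R`-rank at least `G`, there is a box with sides of size at most `s * F` on which all non-zero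
combinations have `R`-rank at least `l`.  Over infinite fields the threshold `G` can be replaced by
`l` itself.

Proof: a compression of bounded size of a tensor by generic linear forms over a field of rational
functions still detects the `R`-rank (`exists_size`), because a decomposition of the array of values
at all tuples of generic points can be moved into the algebra of polynomial functions; the values at
the generic points of the `s` tensors are carried by a box of size linear in `s` (`choose_box`); and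
the `R`-ranks over a field and over an extension field bound each other (`rankExt`).
-/

namespace Pool.Agent.Results.MP_9444d7_co.SimultaneousMinors

universe u v

/-- A tensor `S` of order `d` has `R`-rank at most `1`: it is a product
`x ↦ ∏_{I ∈ P} a_I(x(I))` for some partition `P` in the family `R`. -/
def RankLEOne {d : ℕ} (R : Set (Finpartition (Finset.univ : Finset (Fin d)))) {K : Type u} [Field K]
    {Q : Fin d → Type v} (S : (∀ α, Q α) → K) : Prop :=
  ∃ P ∈ R, ∃ a : ∀ I : Finset (Fin d), (∀ β : {γ // γ ∈ I}, Q β.1) → K,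
    ∀ x : (∀ α, Q α), S x = ∏ I ∈ P.parts, a I (fun β => x β.1)

/-- `T` is a sum of `k` tensors of `R`-rank at most `1`. -/
def IsSumOf {d : ℕ} (R : Set (Finpartition (Finset.univ : Finset (Fin d)))) {K : Type u} [Field K]
    {Q : Fin d → Type v} (k : ℕ) (T : (∀ α, Q α) → K) : Prop :=
  ∃ S : Fin k → ((∀ α, Q α) → K), (∀ i, RankLEOne R (S i)) ∧ T = ∑ i, S i

/-- The `R`-rank of `T`: the least `k` such that `T` is a sum of `k` tensors of `R`-rank at most
`1`. -/
noncomputable def rk {d : ℕ} (R : Set (Finpartition (Finset.univ : Finset (Fin d)))) {K : Type u}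
    [Field K] {Q : Fin d → Type v} (T : (∀ α, Q α) → K) : ℕ∞ :=
  ⨅ (k : ℕ) (_ : IsSumOf R k T), (k : ℕ∞)

/-- The combination `a.T = ∑ a_i T_i`. -/
def comb {d s : ℕ} {K : Type u} [Field K] {Q : Fin d → Type v} (T : Fin s → (∀ α, Q α) → K)
    (a : Fin s → K) : (∀ α, Q α) → K :=
  ∑ i, a i • T i

/-- The restriction of `T` to the product of the sets `X α`. -/
def restrict {d : ℕ} {K : Type u} {Q : Fin d → Type v} (T : (∀ α, Q α) → K)
    (X : ∀ α, Finset (Q α)) : (∀ α, {q // q ∈ X α}) → K :=
  fun y => T (fun α => (y α).1)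

theorem le_rk {d : ℕ} {R : Set (Finpartition (Finset.univ : Finset (Fin d)))} {K : Type u} [Field K]
    {Q : Fin d → Type v} {T : (∀ α, Q α) → K} {l : ℕ} :
    (l : ℕ∞) ≤ rk R T ↔ ∀ k < l, ¬ IsSumOf R k T := by
  unfold rk
  rw [le_iInf₂_iff]
  constructor
  · intro h k hk hS
    have := h k hS
    rw [Nat.cast_le] at this
    omega
  · intro h k hS
    rw [Nat.cast_le]
    by_contra hcon
    exact h k (by omega) hS

open Pool.Agent.H346R3.RR in
theorem toSum {d : ℕ} {R : Set (Finpartition (Finset.univ : Finset (Fin d)))} {l : ℕ}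
    {K : Type u} [Field K] {Q : Fin d → Type v} [∀ α, Nonempty (Q α)] {T : (∀ α, Q α) → K}
    (h : Dec R l (fun _ => True) T) : ∃ k < l, IsSumOf R k T := by
  classical
  obtain ⟨k, hk, P, hP, g, hg, hT⟩ := h
  refine ⟨k, hk, fun i x => ∏ I ∈ (P i).parts, g i I x, ?_, ?_⟩
  · intro i
    refine ⟨P i, hP i, fun I y => g i I (fun α => if h : α ∈ I then y ⟨α, h⟩ else
      Classical.arbitrary (Q α)), fun x => ?_⟩
    apply Finset.prod_congr rfl
    intro I _
    apply hg i I
    intro α hα
    simp [hα]
  · funext x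
    rw [Finset.sum_apply]
    exact hT x trivial

open Pool.Agent.H346R3.RR in
theorem fromSum {d : ℕ} {R : Set (Finpartition (Finset.univ : Finset (Fin d)))} {l : ℕ}
    {K : Type u} [Field K] {Q : Fin d → Type v} {T : (∀ α, Q α) → K} (X : ∀ α, Finset (Q α))
    (h : ∃ k < l, IsSumOf R k (restrict T X)) :
    Dec R l (fun x => ∀ α, x α ∈ X α) T := by
  classical
  obtain ⟨k, hk, S, hS, hT⟩ := h
  choose P hP a ha using hS
  refine ⟨k, hk, P, hP, fun i I x => if h : ∀ β : {γ // γ ∈ I}, x β.1 ∈ X β.1 then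
    a i I (fun β => ⟨x β.1, h β⟩) else 0, ?_, ?_⟩
  · intro i I x y hxy
    have e : (fun β : {γ // γ ∈ I} => x β.1) = (fun β : {γ // γ ∈ I} => y β.1) := by
      funext β
      exact hxy β.1 β.2
    have key : ∀ u v : (∀ β : {γ // γ ∈ I}, Q β.1), u = v →
        (if h : ∀ β : {γ // γ ∈ I}, u β ∈ X β.1 then
          a i I (fun β => ⟨u β, h β⟩) else 0) =
        (if h : ∀ β : {γ // γ ∈ I}, v β ∈ X β.1 then
          a i I (fun β => ⟨v β, h β⟩) else (0 : K)) := by
      rintro u v rfl
      rfl
    exact key _ _ e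
  · intro x hx
    have h1 := congrFun hT (fun α => ⟨x α, hx α⟩)
    rw [Finset.sum_apply] at h1
    change T x = _ at h1
    rw [h1]
    apply Finset.sum_congr rfl
    intro i _
    rw [ha i]
    apply Finset.prod_congr rfl
    intro I _
    have h2 : ∀ β : {γ // γ ∈ I}, x β.1 ∈ X β.1 := fun β => hx β.1
    change _ = (if h : ∀ β : {γ // γ ∈ I}, x β.1 ∈ X β.1 then
      a i I (fun β => ⟨x β.1, h β⟩) else 0)
    rw [dif_pos h2]

/-- **Simultaneous bounded high-rank minors.**  For every `d ≥ 2`, every non-empty family `R` of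
partitions of `[d]` and every `l` there are `F` and `G` such that for every field `K`, all finite
`Q_1, …, Q_d`, every `s` and all tensors `T_1, …, T_s` on `∏ Q_α`: if `rk_R (a.T) ≥ G` for every
`a ≠ 0` (or, when `K` is infinite, if only `rk_R (a.T) ≥ l` for every `a ≠ 0`), then there are
`X_α ⊆ Q_α` of size at most `s * F` with `rk_R ((a.T)(X_1 × … × X_d)) ≥ l` for every `a ≠ 0`. -/
theorem result (d : ℕ) (hd : 2 ≤ d) (R : Set (Finpartition (Finset.univ : Finset (Fin d))))
    (_hR : R.Nonempty) (l : ℕ) :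
    ∃ F G : ℕ, ∀ (K : Type u) [Field K] (Q : Fin d → Type v) [∀ α, Finite (Q α)] (s : ℕ)
      (T : Fin s → (∀ α, Q α) → K),
      ((∀ a : Fin s → K, a ≠ 0 → (G : ℕ∞) ≤ rk R (comb T a)) ∨
        (Infinite K ∧ ∀ a : Fin s → K, a ≠ 0 → (l : ℕ∞) ≤ rk R (comb T a))) →
      ∃ X : ∀ α, Finset (Q α), (∀ α, (X α).card ≤ s * F) ∧
        ∀ a : Fin s → K, a ≠ 0 → (l : ℕ∞) ≤ rk R (restrict (comb T a) X) := by
  classical
  have hne : Nonempty (Fin d) := ⟨⟨0, by omega⟩⟩
  obtain ⟨F, G, hFG⟩ := Pool.Agent.K3h1.SM.core.{u, v} R l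
  refine ⟨F, G + 1, ?_⟩
  intro K _ Q _ s T hT
  by_cases hQ : ∀ α, Nonempty (Q α)
  · have inst : ∀ α, Fintype (Q α) := fun α => Fintype.ofFinite _
    obtain ⟨X, hX, hX2⟩ := hFG K Q s T (by
      rcases hT with hT | ⟨hK, hT⟩
      · left
        intro a ha hD
        obtain ⟨k, hk, hS⟩ := toSum hD
        exact le_rk.mp (hT a ha) k (by omega) hS
      · right
        refine ⟨hK, fun a ha hD => ?_⟩
        obtain ⟨k, hk, hS⟩ := toSum hD
        exact le_rk.mp (hT a ha) k hk hS)
    refine ⟨X, hX, fun a ha => le_rk.mpr (fun k hk hS => hX2 a ha (fromSum X ⟨k, hk, hS⟩))⟩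
  · push Not at hQ
    obtain ⟨α₀, hα₀⟩ := hQ
    refine ⟨fun _ => ∅, fun α => by simp, fun a ha => ?_⟩
    have hempty : ∀ T' : (∀ α, Q α) → K, IsSumOf R 0 T' := by
      intro T'
      refine ⟨fun _ => 0, fun i => i.elim0, ?_⟩
      funext x
      exact (hα₀.false (x α₀)).elim
    rcases hT with hT | ⟨_, hT⟩
    · exact absurd (hempty _) (le_rk.mp (hT a ha) 0 (by omega))
    · rcases Nat.eq_zero_or_pos l with h0 | h0
      · subst h0
        simp
      · exact absurd (hempty _) (le_rk.mp (hT a ha) 0 h0)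

end Pool.Agent.Results.MP_9444d7_co.SimultaneousMinors
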